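import Pool.Agent.SGY.Stmts
import Pool.Agent.Helper56_SGP.CTR

/-!
# SGY, module DEC: the decomposition
-/

set_option autoImplicit false

noncomputable section

namespace Pool.Agent.SGY.H73

open Pool.Agent.SGE Pool.Agent.SGP Pool.Agent.SGY

theorem dec (pre : PreStmt) (de1 : De1Stmt) (de2 : De2Stmt) (de3 : De3Stmt) : DecStmt := by
  intro V _ a b c E F N hI
  obtain ⟨s, w, M, Q, mid, U, hP⟩ := pre N hI
  have hnd0 := N.nd
  simp only [List.nodup_cons, List.mem_cons, List.not_mem_nil, or_false, not_or] at hnd0
  obtain ⟨⟨hac, hab⟩, hcb, -⟩ := hnd0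
  have hnd := hP.nt1.nd
  have hsa : s ≠ a := by
    rintro rfl
    simp at hnd
  have haU : a ∉ U := hP.uo a (by simp)
  have hbL : b ∈ w :: Q := by
    have h1 := hP.nt2.ls
    rw [List.getLast?_cons_cons, List.getLast?_cons_cons] at h1
    exact List.mem_of_getLast? h1
  have hbU : b ∉ U := hP.uo b (by
    rw [List.mem_cons, List.mem_cons]
    exact Or.inr (Or.inr hbL))
  have hsI : s ∈ Inn a b c E := ⟨hsa, hP.sb, hP.sc, w, hP.sw⟩
  have hKI : insert s U ⊆ Inn a b c E := by
    intro x hx
    rcases Set.mem_insert_iff.1 hx with rfl | hx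
    · exact hsI
    · exact ⟨fun e => haU (e ▸ hx), fun e => hbU (e ▸ hx), fun e => hP.uc (e ▸ hx), hP.ur x hx⟩
  by_cases hne : (Inn a b c E \ insert s U).Nonempty
  · right
    obtain ⟨E₁, F₁, h1, h2, h3⟩ := de1 hP
    obtain ⟨E₂, F₂, g1, g2, g3⟩ := de2 hP
    exact ⟨insert s U, E₁, F₁, E₂, F₂, {
      nt1 := h1
      nt2 := g1
      sub := hKI
      ne := ⟨s, Set.mem_insert _ _⟩
      ne' := hne
      inn1 := h2
      inn2 := g2
      r1 := h3
      r2 := g3 }⟩
  · left
    rw [Set.not_nonempty_iff_eq_empty] at hne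
    have key : ∀ x ∈ mid ++ w :: Q, x = b := by
      intro x hx
      obtain ⟨y, hy⟩ := H56.contour_nb hP.nt4 (z := x) (List.mem_cons_of_mem _ hx)
      by_contra hxb
      have hxa : x ≠ a := by
        rintro rfl
        have := hP.nt4.nd
        rw [List.nodup_cons] at this
        exact this.1 hx
      have h1 : x ∈ Inn a b c E \ insert s U := by
        refine ⟨⟨hxa, hxb, hy.1.1.2.1, y, hy.1.1.1⟩, ?_⟩
        rw [Set.mem_insert_iff]
        rintro (h | h)
        · exact hy.2.1 h
        · exact hy.1.2.1 h
      rw [hne] at h1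
      exact h1
    have hnd4 := hP.nt4.nd
    rw [List.nodup_cons] at hnd4
    have hwb : w = b := key w (by simp)
    subst hwb
    have hmid : mid = [] := by
      cases mid with
      | nil => rfl
      | cons t mid =>
        exfalso
        have h1 : t = w := key t (by simp)
        have h2 := hnd4.2
        rw [h1] at h2
        simp at h2
    have hQ : Q = [] := by
      cases Q with
      | nil => rfl
      | cons t Q =>
        exfalso
        have h1 : t = w := key t (by simp)
        have h2 := hnd4.2
        rw [h1, List.nodup_append] at h2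
        have h3 := h2.2.1
        simp at h3
    subst hmid
    subst hQ
    obtain ⟨E', F', h⟩ := de3 hP
    exact ⟨s, E', F', h⟩

end Pool.Agent.SGY.H73
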