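import Pool.Agent.SGY.Stmts
import Pool.Agent.Helper56_SGP.CTR
import Pool.Agent.Helper17_SGP.RMV

/-!
# SGY, module PRE: the first state of the decomposition
-/

set_option autoImplicit false

noncomputable section

namespace Pool.Agent.SGY.H73

open Pool.Agent.SGE Pool.Agent.SGP Pool.Agent.SGY

theorem last_split {V : Type} (p : V → Prop) (R : List V) (h : ∃ x ∈ R, p x) :
    ∃ M w Q, R = M ++ w :: Q ∧ p w ∧ ∀ x ∈ Q, ¬ p x := by
  induction R with
  | nil =>
    obtain ⟨x, hx, -⟩ := h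
    simp at hx
  | cons r R ih =>
    by_cases h' : ∃ x ∈ R, p x
    · obtain ⟨M, w, Q, h1, h2, h3⟩ := ih h'
      exact ⟨r :: M, w, Q, by rw [h1]; rfl, h2, h3⟩
    · push Not at h'
      obtain ⟨x, hx, hpx⟩ := h
      rcases List.mem_cons.1 hx with rfl | hx
      · exact ⟨[], x, R, rfl, hpx, h'⟩
      · exact absurd hpx (h' x hx)

theorem pre (spl : SplStmt) : PreStmt := by
  intro V _ a b c E F N hI
  have hnd0 := N.nd
  simp only [List.nodup_cons, List.mem_cons, List.not_mem_nil, or_false, not_or] at hnd0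
  obtain ⟨⟨hac, hab⟩, hcb, -⟩ := hnd0
  obtain ⟨mid₁, N₁', hnc', hch', hfc'⟩ := H17.rmv (P := []) (p := a) (v := c) (q := b) (Q := []) N (by
    intro x hx hEx
    simp only [List.nil_append, List.mem_cons, List.not_mem_nil, or_false] at hx
    rcases hx with rfl | rfl | rfl
    · exact Or.inl rfl
    · exact absurd hEx (N.irr _)
    · exact Or.inr rfl)
  have N₁ : NT a b (a :: (mid₁ ++ [b])) (rE E c) (rF F c) := N₁'
  clear N₁'
  have hmid : mid₁ ≠ [] := by
    rintro rfl
    obtain ⟨x, hxa, hxb, hxc, y, hxy⟩ := hI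
    have N₁' : NT a b [a, b] (rE E c) (rF F c) := N₁
    by_cases hy : y = c
    · subst hy
      have h1 := (hnc' x).1 (N.sym _ _ hxy)
      simp only [List.nil_append, List.mem_cons, List.not_mem_nil, or_false] at h1
      rcases h1 with h1 | h1
      · exact hxa h1
      · exact hxb h1
    · rcases H56.two N₁' (⟨hxy, hxc, hy⟩ : rE E c x y) with h1 | h1
      · exact hxa h1
      · exact hxb h1
  obtain ⟨s, R₁, rfl⟩ := List.exists_cons_of_ne_nil hmid
  obtain ⟨r, R, hR⟩ : ∃ r R, R₁ ++ [b] = r :: R := by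
    cases R₁ with
    | nil => exact ⟨b, [], rfl⟩
    | cons t R₁ => exact ⟨t, R₁ ++ [b], rfl⟩
  have hL : a :: (s :: R₁ ++ [b]) = a :: s :: r :: R := by
    rw [List.cons_append, hR]
  rw [hL] at N₁ hnc' hch' hfc'
  have hsr : rE E c s r := by
    have h1 := N₁.bd
    have h2 : Fan (rE E c) (rF F c) a s r := H17.tri_forall (A := [b]) (B := R ++ [a]) (by simpa using h1)
    obtain ⟨l, -, h4, -, -, h5, -⟩ := h2
    exact (h5 r).2 (List.mem_of_getLast? h4)
  obtain ⟨M, w, Q, hMQ, hsw, hQ⟩ := last_split (rE E c s) (r :: R) ⟨r, by simp, hsr⟩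
  rw [hMQ] at N₁ hnc' hch' hfc'
  have hsc : s ≠ c := by
    rintro rfl
    exact hsw.2.1 rfl
  have hwc : w ≠ c := hsw.2.2
  have hsb : s ≠ b := by
    rintro rfl
    have h1 := N₁.nd
    rw [← hMQ, ← hR] at h1
    simp at h1
  have hnd := N₁.nd
  obtain ⟨U, hU1, hU2, hU3, hU4, N₂', N₃⟩ := spl (P := [a]) (M := M) (Q := Q) (u := s) (w := w)
    (by simpa using N₁) hsw
  have N₂ : NT a b (a :: s :: w :: Q) (offE (rE E c) U) (offF (rF F c) U) := by simpa using N₂'
  have hcU : c ∉ U := by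
    intro h
    obtain ⟨y, hy⟩ := hU3 c h
    exact hy.2.1 rfl
  have hUo : ∀ x ∈ a :: s :: w :: Q, x ∉ U := by
    intro x hx
    exact hU2 x (by simpa using hx)
  obtain ⟨mid, N₄', hns', hchs', hfs'⟩ := H17.rmv (P := []) (p := a) (v := s) (q := w) (Q := Q) N₂ (by
    intro x hx hEx
    simp only [List.nil_append, List.mem_cons] at hx
    rcases hx with rfl | rfl | rfl | hx
    · exact Or.inl rfl
    · exact absurd hEx.1.1 (N.irr _)
    · exact Or.inr rfl
    · exact absurd hEx.1 (hQ x hx))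
  refine ⟨s, w, M, Q, mid, U, ?_⟩
  exact {
    nt := N
    nt1 := N₁
    nc := hnc'
    ch := hch'
    fc := hfc'
    sw := hsw.1
    sq := fun x hx h => hQ x hx ⟨h, hsc, fun e => by
      have h1 : c ∈ a :: s :: (M ++ w :: Q) := by
        rw [← e]
        simp [hx]
      obtain ⟨y, hy⟩ := H56.contour_nb N₁ h1
      exact hy.2.1 rfl⟩
    sc := hsc
    wc := hwc
    sb := hsb
    uM := hU1
    uo := hUo
    uc := hcU
    ur := fun x hx => by
      obtain ⟨y, hy⟩ := hU3 x hx
      exact ⟨y, hy.1⟩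
    ucl := fun x hx y hxy => by
      by_cases hy : y = c
      · exact Or.inr (Or.inr (Or.inr hy))
      · rcases hU4 x hx y ⟨hxy, fun e => hcU (e ▸ hx), hy⟩ with h | h | h
        · exact Or.inl h
        · exact Or.inr (Or.inl h)
        · exact Or.inr (Or.inr (Or.inl h))
    nt2 := N₂
    nt3 := N₃
    nt4 := N₄'
    ns := hns'
    chs := hchs'
    fs := hfs' }

end Pool.Agent.SGY.H73
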