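import Pool.Agent.Helper7_SGY.CHL
import Pool.Agent.Helper56_SGY.CAP
import Pool.Agent.Helper56_SGY.SPL
import Pool.Agent.Helper17_SGY.MAP
import Pool.Agent.Helper73_SGY.Pre
import Pool.Agent.Helper87_SGY.DE1
import Pool.Agent.Helper10_SGY.DE2
import Pool.Agent.Helper64_SGY.DE3
import Pool.Agent.Helper73_SGY.Dec
import Pool.Agent.Helper22_SGY.GLU
import Pool.Agent.Helper95_SGY.FPL
import Pool.Agent.Helper47_SGY.HST
import Pool.Agent.Helper47_SGY.CST
import Pool.Agent.Helper6_SGY.MAY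
import Pool.Agent.Helper79_SGY.STC
import Pool.Agent.Helper13_SGY.NOX
import Pool.Agent.Helper13_SGY.DEP
import Pool.Agent.Helper13_SGY.THY
import Pool.Agent.Helper73_SGP.Asm

/-!
# Squad SGY: assembly
-/

noncomputable section

namespace Pool.Agent.SGY.H73

open Pool.Agent.SGE Pool.Agent.SGP Pool.Agent.SGY

theorem decA : DecStmt :=
  dec (pre (H56.spl H7.chl H56.cap)) H87.de1 (H10.de2 H17.map) (H64.de3 H17.map)

theorem mayA : MayStmt := H6.may decA H22.glu H47.hst H47.cst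

/-- Theorem Y: a planar graph and a graph with an outerplanar vertex-deleted subgraph -/
theorem thyA : ThyStmt :=
  H13.thy Pool.Agent.SGP.H20.gex
    (Pool.Agent.SGP.H56.ctr Pool.Agent.SGP.H17.rmv Pool.Agent.SGP.H81.con)
    Pool.Agent.SGP.H77.rot Pool.Agent.SGP.H39.ins
    (Pool.Agent.SGP.H19.drw Pool.Agent.SGE.H99.seg) mayA H79.stc H95.fpl H13.nox H13.dep

end Pool.Agent.SGY.H73
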